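import Pool.Agent.H.MP_74ce82_an.D

set_option autoImplicit false
open Finset Real Polynomial

namespace Pool.Agent.Results.MP_74ce82_an.Yes

theorem result (n : ℕ) (hn : 1 ≤ n) : ∃ cn : ℝ, 0 < cn ∧
    (∀ c : ℝ, ((∏ j ∈ Icc 1 (2 * n), (X - C ((j : ℂ) - 1)) + C ((-1) ^ n * (c : ℂ))).roots.filter
      fun z => -1 / 2 < z.re).card = n ↔ cn ≤ c) ∧
    2 * (n : ℝ) ^ 2 / π < cn ^ (1 / (2 * n : ℝ)) ∧
    cn ^ (1 / (2 * n : ℝ)) < n / sin (π / (2 * n)) := by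
  open Pool.Agent.H.MP_74ce82_an in
  obtain ⟨y, y0, hy, b1, b2⟩ := star hn
  have r0 := R_pos (N := 2 * n) (by norm_num : (0 : ℝ) < 1 / 2) y
  have n1 : (1 : ℝ) ≤ n := by exact_mod_cast hn
  have e : (√(R (2 * n) (1 / 2) y) ^ (1 / (2 * n : ℝ))) ^ (4 * n) = R (2 * n) (1 / 2) y := by
    rw [← rpow_natCast, ← rpow_mul (sqrt_nonneg _), show 1 / (2 * n : ℝ) * (4 * n : ℕ) = (2 : ℕ) by
      push_cast; field_simp; norm_num, rpow_natCast, sq_sqrt r0.le]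
  have s0 : 0 < sin (π / (2 * n)) := sin_pos_of_pos_of_lt_pi (by positivity)
    (by rw [div_lt_iff₀ (by positivity)]; nlinarith [pi_pos])
  refine ⟨√(R (2 * n) (1 / 2) y), sqrt_pos.2 r0, fun c => ?_,
    lt_of_pow_lt_pow_left₀ (4 * n) (by positivity) (by rwa [e]),
    lt_of_pow_lt_pow_left₀ (4 * n) (by positivity) (by rwa [e])⟩
  have p : ∏ j ∈ Icc 1 (2 * n), (X - C ((j : ℂ) - 1)) = P (2 * n) := by
    rw [P, ← Ico_add_one_right_eq_Icc, prod_Ico_eq_prod_range]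
    simp
  rw [p, ← cnt hn y0 hy c]
  have a := congrArg Multiset.card (Multiset.filter_add_not (fun z : ℂ => -1 / 2 < z.re)
    (P (2 * n) + C ((-1) ^ n * (c : ℂ))).roots)
  rw [Multiset.card_add, IsAlgClosed.card_roots_eq_natDegree, D_deg] at a
  omega

end Pool.Agent.Results.MP_74ce82_an.Yes
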